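import Pool.Agent.H.MP_a19cb6_nt.A

set_option autoImplicit false

namespace Pool.Agent.H.MP_e13726_nt

open Finset Pool.Agent.H.MP_a19cb6_nt

noncomputable def force (v : ℕ) (k : ℕ → ℕ) : ℕ := Nat.rec (k 0) (fun n _ => k (Nat.succ n)) v

noncomputable def tst (G t : ℕ) : ℕ :=
  Bool.rec t (Bool.rec t (Nat.add t 18446744073709551616)
    (Nat.beq (Nat.gcd (Nat.mod t 18446744073709551616) G) 1)) (Nat.beq (Nat.mod t 2) 1)

def tab : ℕ := 0x10641c2542137099864254e4e00a09cf661c56428a053ccc4e4a502c960a1683dc6d621c215d6e42d33285b7541bb334154e948299600317f25c1d0a4005a5c93e1541b83b625f570cc1160af5bdce431274d0f3289bf6e17c544ac6f0873388a059e14ed965254329cd1584e1034ea601762608d078fd0a9a1000525a819729dd3e4d6556001bde40f0da628757d8c77113e30920165182c0675c19973d594347f4a1044d54c3d09e28d66701316e5465f400549f32b5256f4aa2219433ce822d9f05cd4788734f11665c7d52964511f12a0e634914588e4389e8039ea3ac5e604105ddd8265ec239ae07ced3f8400ac60688460018314c935ac120683872d79778de3e9da35d1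d5589b001911c1ee795d50f49036d8e62db01d8b97dc21321b3714ef4fc4e30d004847916842464b52c42d1a0bc5c462669a9741a4569fa43848200314a400414244d985534093d45527ccb2909559c6c7056d4c9b66e81451d5f5f81c001c854c3a7d0c02b9cd498f26f97b2ac86225e065542340e03a575230fc68051061dc355ff78cd91d0c64f51f45c66661581f90352c9d59530514007c9242a59339d9e34c724547c58df03951338de77a45d03dd77adad3b03f17c4560892044375e0dd7651c269907b5d423d8d6bcb8081b23b84d3fc78104b40b0bb185a868df911c300002361008150ca2506b5b1b504d5e06dc70e4bf730f15e88577d4137d743ec5076dfe360c54786555d022712f001236499d1c47b7bd127985c759ac0f844244363711b63dd3630b76c44c1dcb32e9a77e02f088073246a6d15d718be3c0845017313dfd310644052e4899c1e91116dab10c35469d22d84b2c9a60b8061a55c2f4835c9fc18d2d66d106a8347444a6940556c827ed2c43c33124042052b0c8034a80200400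

noncomputable def low (x : ℕ) : ℕ :=
  Nat.land (Nat.shiftRight tab (Nat.mul 10 (Nat.mod (Nat.gcd x (Nat.pow 2 512)) 523))) 1023

/-- `b` already contains the increment of the counter -/
noncomputable def bits (G f : ℕ) : ℕ → ℕ → ℕ → ℕ :=
  Nat.rec (fun _ _ st => st) (fun _ ih b x st => Bool.rec
    (ih (Nat.add b (Nat.mul 2 (low x))) (Nat.shiftRight x (low x))
      (tst G (Nat.add st (Nat.add b (Nat.mul 2 (low x))))))
    st (Nat.beq x 0)) f

noncomputable def chunks (G W m : ℕ) : ℕ → ℕ → ℕ → ℕ :=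
  Nat.rec (fun _ _ st => st) (fun _ ih a C st =>
    force (bits G W (2 * a + (2 ^ 100 - 1)) ((C % 2 ^ W) ^^^ (2 ^ W - 1)) st)
      (ih (a + W) (C >>> W))) m

noncomputable def segs (G n W m s : ℕ) : ℕ → ℕ → ℕ :=
  Nat.rec (fun _ st => st) (fun _ ih a st =>
    force (chunks G W m a (sv (m * W) a (qs n)) st) (ih (a + m * W))) s

noncomputable def dig (k H h : ℕ) : ℕ :=
  Nat.rec 1 (fun j ih => ih * ((H >>> (k * j)) % 2 ^ k + 1)) h

noncomputable def lp (Q : List ℕ) : ℕ := List.rec 1 (fun q _ ih => ih * q) Q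

noncomputable def chk (n n' k h W m s a b st st' H : ℕ) : Bool :=
  Nat.ble (n + 1) a && Nat.ble (2 * b + 1) ((2 * n + 3) ^ 2) && Nat.ble (m * W) 1000000 &&
    Nat.ble b 1000000000 && Nat.ble W 512 && Nat.ble (2 * n' + 2 + 2 ^ k) (st % 2 ^ 64) &&
    Nat.beq b (a + s * (m * W)) && Nat.beq (segs (lp (qs n') * dig k H h) n W m s a st) st'

/-- the sum of the first `c` primes -/
noncomputable def A (c : ℕ) : ℕ := ∑ i ∈ range c, Nat.nth Nat.Prime i

/-- the invariant of the computation -/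
def R (B N st : ℕ) : Prop := ∃ c u, c = Nat.count Nat.Prime N ∧ st = c * 2 ^ 100 + u * 2 ^ 64 + A c ∧
  ((range (c + 1)).filter fun i => (A i).Prime).card ≤ u ∧ u ≤ c ∧ A c ≤ N * N ∧ B ≤ A c

theorem force_eq (v : ℕ) (k : ℕ → ℕ) : force v k = k v := by cases v <;> rfl

theorem R.skip {B N N' st : ℕ} (h : R B N st) (h1 : N ≤ N')
    (h2 : ∀ p, N ≤ p → p < N' → ¬ p.Prime) : R B N' st := by
  obtain ⟨c, u, a, b, d, e, f, g⟩ := h
  refine ⟨c, u, ?_, b, d, e, f.trans (Nat.mul_self_le_mul_self h1), g⟩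
  rw [a]
  induction N', h1 using Nat.le_induction with
  | base => rfl
  | succ M hM ih =>
    rw [Nat.count_succ, if_neg (h2 M hM (by omega)), add_zero]
    exact ih fun p a b => h2 p a (by omega)

theorem R.add {B G p st : ℕ} (hG : ∀ q, q.Prime → q ∣ G → q < B) (h : R B p st) (hp : p.Prime)
    (h3 : 3 ≤ p) (h4 : p ≤ 2000000001) : R B (p + 1) (tst G (st + (2 ^ 100 + p))) := by
  obtain ⟨c, u, a, b, d, e, f, g⟩ := h
  have h1 : A (c + 1) = A c + p := by rw [A, sum_range_succ, a, Nat.nth_count hp]; rfl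
  have h2 : A (c + 1) ≤ (p + 1) * (p + 1) := by nlinarith
  have h5 : (p + 1) * (p + 1) ≤ 2000000002 * 2000000002 := Nat.mul_self_le_mul_self (by omega)
  have h6 : c + 1 = Nat.count Nat.Prime (p + 1) := by rw [Nat.count_succ, if_pos hp, a]
  obtain ⟨t, ht⟩ : ∃ t, t = st + (2 ^ 100 + p) := ⟨_, rfl⟩
  have h7 : t = (c + 1) * 2 ^ 100 + u * 2 ^ 64 + A (c + 1) := by omega
  have h8 : t % 18446744073709551616 = A (c + 1) := by omega
  have k1 : ¬ (A (c + 1)).Prime → R B (p + 1) t := fun h =>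
    ⟨c + 1, u, h6, h7, by rwa [range_add_one, filter_insert, if_neg h], by omega, h2, by omega⟩
  have k2 : R B (p + 1) (t + 18446744073709551616) := by
    refine ⟨c + 1, u + 1, h6, by omega, ?_, by omega, h2, by omega⟩
    rw [range_add_one, filter_insert]
    split_ifs
    · exact (card_insert_le _ _).trans (by omega)
    · omega
  rw [← ht]
  unfold tst
  cases e1 : Nat.beq (Nat.mod t 2) 1
  · refine k1 fun hq => Nat.ne_of_beq_eq_false e1 ?_
    have := hq.eq_two_or_odd
    change t % 2 = 1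
    omega
  cases e2 : Nat.beq (Nat.gcd (Nat.mod t 18446744073709551616) G) 1
  · refine k1 fun hq => Nat.ne_of_beq_eq_false e2 ?_
    change Nat.gcd (t % 18446744073709551616) G = 1
    rw [h8]
    exact (Nat.Prime.coprime_iff_not_dvd hq).2 fun hd => by have := hG _ hq hd; omega
  · exact k2

theorem low_eq {t m : ℕ} (ht : t < 512) (hm : Odd m) : low (2 ^ t * m) = t + 1 := by
  have h : ∀ t < 512, (tab >>> (10 * (2 ^ t % 523))) &&& 1023 = t + 1 := by decide +kernel
  have e : Nat.gcd (2 ^ t * m) (2 ^ 512) = 2 ^ t := by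
    obtain ⟨k, hk⟩ := Nat.exists_eq_add_of_le ht.le
    rw [hk, pow_add, Nat.gcd_mul_left, Nat.Coprime.pow_right k hm.coprime_two_right, mul_one]
  rw [← h t ht]
  exact congrArg (fun z => (tab >>> (10 * (z % 523))) &&& 1023) e

theorem bits_R {B G : ℕ} (hG : ∀ q, q.Prime → q ∣ G → q < B) (f : ℕ) : ∀ a x st e, f ≤ 512 →
    R B (2 * a + 1) st → 1 ≤ a → x < 2 ^ f → x < 2 ^ e → a + e ≤ 1000000000 →
    (∀ i < e, x.testBit i = true ↔ (2 * (a + i) + 1).Prime) →
    R B (2 * (a + e) + 1) (bits G f (2 * a + (2 ^ 100 - 1)) x st) := by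
  have k : ∀ {a e s x : ℕ}, R B (2 * a + 1) s → 1 ≤ a →
      (∀ i < e, x.testBit i = true ↔ (2 * (a + i) + 1).Prime) → ∀ t ≤ e,
      (∀ i < t, x.testBit i = false) → R B (2 * (a + t) + 1) s := by
    intro a e s x h1 h2 h4 t ht h0
    refine h1.skip (by omega) fun p h5 h6 hp => ?_
    have h7 := hp.eq_two_or_odd
    have := (h4 (p / 2 - a) (by omega)).2 (by convert hp using 1; omega)
    rw [h0 _ (by omega)] at this
    simp at this
  induction f with
  | zero =>
    intro a x st e _ h ha h1 _ _ h4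
    obtain rfl : x = 0 := by omega
    exact k h ha h4 e le_rfl (by simp)
  | succ f ih =>
    intro a x st e hf h ha h1 h2 h3 h4
    have e0 : ∀ b, bits G (f + 1) b x st = Bool.rec (bits G f (b + 2 * low x) (x >>> low x)
      (tst G (st + (b + 2 * low x)))) st (Nat.beq x 0) := fun _ => rfl
    rw [e0]
    cases e1 : Nat.beq x 0
    · obtain ⟨t, m, hm, rfl⟩ := Nat.exists_eq_two_pow_mul_odd (Nat.ne_of_beq_eq_false e1)
      have h0 : 2 ^ t ≤ 2 ^ t * m := Nat.le_mul_of_pos_right _ hm.pos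
      have h5 := (Nat.pow_lt_pow_iff_right one_lt_two).1 (h0.trans_lt h1)
      have h6 := (Nat.pow_lt_pow_iff_right one_lt_two).1 (h0.trans_lt h2)
      have h7 := (k h ha h4 t h6.le fun i hi => by simp [Nat.testBit_two_pow_mul, hi]).add hG
        ((h4 t h6).1 (by simpa [Nat.testBit_two_pow_mul, Nat.odd_iff] using hm)) (by omega) (by omega)
      obtain ⟨d, rfl⟩ : ∃ d, e = t + 1 + d := ⟨e - (t + 1), by omega⟩
      rw [low_eq (by omega) hm, ← add_assoc,
        show 2 * a + (2 ^ 100 - 1) + 2 * (t + 1) = 2 * (a + (t + 1)) + (2 ^ 100 - 1) by omega]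
      refine ih _ _ _ d (by omega) ?_ (by omega) ?_ ?_ (by omega) fun i hi => ?_
      · rw [show 2 * (a + (t + 1)) + (2 ^ 100 - 1) = 2 ^ 100 + (2 * (a + t) + 1) by omega]
        exact h7.skip (by omega) fun p _ _ hp => by have := hp.eq_two_or_odd; omega
      · rw [Nat.shiftRight_eq_div_pow, Nat.div_lt_iff_lt_mul (by positivity), ← pow_add]
        exact h1.trans_le (Nat.pow_le_pow_right two_pos (by omega))
      · rwa [Nat.shiftRight_eq_div_pow, Nat.div_lt_iff_lt_mul (by positivity), ← pow_add, add_comm]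
      · rw [Nat.testBit_shiftRight, h4 _ (by omega), add_assoc a]
    · obtain rfl := Nat.eq_of_beq_eq_true e1
      exact k h ha h4 e le_rfl (by simp)

theorem chunks_R {B G W : ℕ} (hG : ∀ q, q.Prime → q ∣ G → q < B) (hW : W ≤ 512) (m : ℕ) : ∀ a C st,
    R B (2 * a + 1) st → 1 ≤ a → a + m * W ≤ 1000000000 →
    (∀ i < m * W, C.testBit i = true ↔ ¬ (2 * (a + i) + 1).Prime) →
    R B (2 * (a + m * W) + 1) (chunks G W m a C st) := by
  induction m with
  | zero => exact fun a C st h _ _ _ => by simpa [chunks] using h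
  | succ m ih =>
    intro a C st h h1 h2 h3
    have e : chunks G W (m + 1) a C st =
      force (bits G W (2 * a + (2 ^ 100 - 1)) ((C % 2 ^ W) ^^^ (2 ^ W - 1)) st)
        (chunks G W m (a + W) (C >>> W)) := rfl
    rw [add_mul, one_mul, add_comm (m * W)] at h2 h3 ⊢
    have h4 : (C % 2 ^ W) ^^^ (2 ^ W - 1) < 2 ^ W :=
      Nat.xor_lt_two_pow (Nat.mod_lt _ (by positivity)) (Nat.sub_lt (by positivity) one_pos)
    rw [e, force_eq, ← add_assoc]
    refine ih _ _ _ (bits_R hG W _ _ _ W hW h h1 h4 h4 (by omega) fun i hi => ?_) (by omega) (by omega)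
      fun i hi => by rw [Nat.testBit_shiftRight, h3 _ (by omega), add_assoc]
    have := h3 i (by omega)
    rw [Nat.testBit_xor, Nat.testBit_mod_two_pow, Nat.testBit_two_pow_sub_one]
    cases hb : C.testBit i <;> simp_all

theorem segs_R {B G n W m : ℕ} (hG : ∀ q, q.Prime → q ∣ G → q < B) (h0 : m * W ≤ 1000000)
    (hW : W ≤ 512) (s : ℕ) :
    ∀ a st, R B (2 * a + 1) st → n < a → a + s * (m * W) ≤ 1000000000 →
    2 * (a + s * (m * W)) < (2 * n + 3) ^ 2 → R B (2 * (a + s * (m * W)) + 1) (segs G n W m s a st) := by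
  induction s with
  | zero => exact fun a st h _ _ _ => by simpa [segs] using h
  | succ s ih =>
    intro a st h h1 h2 h3
    have e : segs G n W m (s + 1) a st =
      force (chunks G W m a (sv (m * W) a (qs n)) st) (segs G n W m s (a + m * W)) := rfl
    rw [add_mul, one_mul, add_comm (s * _), ← add_assoc] at h2 h3 ⊢
    rw [e, force_eq]
    exact ih _ _ (chunks_R hG hW m _ _ _ h (by omega) (by omega) fun i hi =>
      sv_prime (by omega) hi h1 (by omega)) (by omega) h2 h3

theorem step {n n' k h W m s a b st st' H : ℕ} (hc : chk n n' k h W m s a b st st' H = true)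
    (hR : R 0 (2 * a + 1) st) : R 0 (2 * b + 1) st' := by
  simp only [chk, Bool.and_eq_true, Nat.ble_eq, Nat.beq_eq] at hc
  obtain ⟨⟨⟨⟨⟨⟨⟨h1, h2⟩, h3⟩, h4⟩, hW⟩, h5⟩, rfl⟩, rfl⟩ := hc
  obtain ⟨c, u, a1, a2, a3, a4, a5, -⟩ := hR
  have h6 : (2 * a + 1) * (2 * a + 1) ≤ 2000000001 * 2000000001 :=
    Nat.mul_self_le_mul_self (by omega)
  have hk : 0 < 2 ^ k := by positivity
  have hG : ∀ q, q.Prime → q ∣ lp (qs n') * dig k H h → q < 2 * n' + 2 + 2 ^ k := by
    intro q hq hd
    rcases (Nat.Prime.dvd_mul hq).1 hd with hd | hd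
    · have : ∀ Q : List ℕ, q ∣ lp Q → ∃ r ∈ Q, q ∣ r := fun Q => by
        induction Q with
        | nil => exact fun h => absurd (Nat.dvd_one.1 h) hq.ne_one
        | cons r Q ih =>
          intro h
          rcases (Nat.Prime.dvd_mul hq).1 h with h | h
          · obtain ⟨r, a, b⟩ := ih h
            exact ⟨r, List.mem_cons_of_mem _ a, b⟩
          · exact ⟨r, List.mem_cons_self, h⟩
      obtain ⟨r, a, b⟩ := this _ hd
      obtain ⟨j, hj, rfl, -⟩ := (mem_qs _ _).1 a
      have := Nat.le_of_dvd (by omega) b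
      omega
    · have : ∀ h, q ∣ dig k H h → q ≤ 2 ^ k := fun h => by
        induction h with
        | zero => exact fun hd => absurd (Nat.dvd_one.1 hd) hq.ne_one
        | succ h ih =>
          intro hd
          rcases (Nat.Prime.dvd_mul hq).1 hd with hd | hd
          · exact ih hd
          · exact (Nat.le_of_dvd (Nat.succ_pos _) hd).trans (Nat.mod_lt _ hk)
      have := this h hd
      omega
  obtain ⟨c, u, b1, b2, b3, b4, b5, -⟩ := segs_R hG h3 hW s a st
    ⟨c, u, a1, a2, a3, a4, a5, by omega⟩ h1 h4 h2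
  exact ⟨c, u, b1, b2, b3, b4, b5, Nat.zero_le _⟩

end Pool.Agent.H.MP_e13726_nt
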